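import Pool.Agent.KS6_20.BV.Window

/-!
# The basin of the equilibrium for `x_{n+1} = ∑ i, α i / x_{n - k i}`

The library treats two delays and equal weights (`BasinsByValuation` and nine others). Here there is
any finite family of delays, with arbitrary positive weights; the convergence is exponential with a
rate that does not depend on the initial vector, the limit is nonexpansive in logarithmic
coordinates, and membership in the basin is a countable family of inequalities on windows.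
-/

set_option autoImplicit false

namespace Pool.Agent.Results.MP_247194_an.AnyDelaysExponentialRate

open Filter Topology Pool.Agent.KS6_20.BV

/-- Among any `(m + 1) / g` consecutive terms of any residue class modulo `g` there is one on each
side of the equilibrium, the two sides being exchanged at every second place of the class. -/
def Balanced {ι : Type} [Fintype ι] (k : ι → ℕ) (α : ι → ℝ) (v : Fin (top k + 1) → ℝ) : Prop :=
  ∀ r N : ℕ,
    (∃ q, N ≤ q ∧ q < N + (top k + 1) / gg k ∧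
      if Even q then sol k α v (r + gg k * q) ≤ √(∑ i, α i)
      else √(∑ i, α i) ≤ sol k α v (r + gg k * q)) ∧
    (∃ q, N ≤ q ∧ q < N + (top k + 1) / gg k ∧
      if Even q then √(∑ i, α i) ≤ sol k α v (r + gg k * q)
      else sol k α v (r + gg k * q) ≤ √(∑ i, α i))

/-- **The result.** -/
theorem result {ι : Type} [Fintype ι] [Nonempty ι] (k : ι → ℕ) (α : ι → ℝ) (hα : ∀ i, 0 < α i) :
    (basin k α = {v | ∀ j, 0 < v j} ↔
      ∃ i j, padicValNat 2 (k i + 1) ≠ padicValNat 2 (k j + 1)) ∧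
    ((∃ i j, padicValNat 2 (k i + 1) ≠ padicValNat 2 (k j + 1)) →
      ∃ ρ : ℝ, 0 < ρ ∧ ρ < 1 ∧ ∀ v : Fin (top k + 1) → ℝ, (∀ i, 0 < v i) →
        ∃ C, ∀ n, |sol k α v n - √(∑ i, α i)| ≤ C * ρ ^ n) ∧
    ((∀ i j, padicValNat 2 (k i + 1) = padicValNat 2 (k j + 1)) →
      (∃ c : (Fin (top k + 1) → ℝ) → ℕ → ℝ,
        (∀ v, (∀ i, 0 < v i) → ∀ n, 0 < c v n ∧ c v (n + gg k) * c v n = ∑ i, α i) ∧
        (∃ ρ : ℝ, 0 < ρ ∧ ρ < 1 ∧ ∀ v, (∀ i, 0 < v i) →
          ∃ C, ∀ n, |sol k α v n - c v n| ≤ C * ρ ^ n) ∧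
        (∀ v v', (∀ i, 0 < v i) → (∀ i, 0 < v' i) → ∀ D : ℝ,
          (∀ i, |Real.log (v i) - Real.log (v' i)| ≤ D) →
          ∀ n, |Real.log (c v n) - Real.log (c v' n)| ≤ D) ∧
        ∀ v, (∀ i, 0 < v i) → (v ∈ basin k α ↔ ∀ n, c v n = √(∑ i, α i))) ∧
      (∀ v : Fin (top k + 1) → ℝ, (∀ i, 0 < v i) →
        ∃! w : ℕ → ℝ, (∀ n, 0 < w n ∧ w (n + gg k) * w n = 1) ∧
          (fun i : Fin (top k + 1) => w i * v i) ∈ basin k α) ∧
      Nonempty (basin k α ≃ₜ (Fin (top k + 1 - gg k) → ℝ)) ∧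
      ∀ v : Fin (top k + 1) → ℝ, (∀ i, 0 < v i) → (v ∈ basin k α ↔ Balanced k α v)) := by
  have hd := gg_pos k
  have main : (∀ i j, padicValNat 2 (k i + 1) = padicValNat 2 (k j + 1)) →
      (∃ c : (Fin (top k + 1) → ℝ) → ℕ → ℝ,
        (∀ v, (∀ i, 0 < v i) → ∀ n, 0 < c v n ∧ c v (n + gg k) * c v n = ∑ i, α i) ∧
        (∃ ρ : ℝ, 0 < ρ ∧ ρ < 1 ∧ ∀ v, (∀ i, 0 < v i) →
          ∃ C, ∀ n, |sol k α v n - c v n| ≤ C * ρ ^ n) ∧
        (∀ v v', (∀ i, 0 < v i) → (∀ i, 0 < v' i) → ∀ D : ℝ,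
          (∀ i, |Real.log (v i) - Real.log (v' i)| ≤ D) →
          ∀ n, |Real.log (c v n) - Real.log (c v' n)| ≤ D) ∧
        ∀ v, (∀ i, 0 < v i) → (v ∈ basin k α ↔ ∀ n, c v n = √(∑ i, α i))) ∧
      (∀ v : Fin (top k + 1) → ℝ, (∀ i, 0 < v i) →
        ∃! w : ℕ → ℝ, (∀ n, 0 < w n ∧ w (n + gg k) * w n = 1) ∧
          (fun i : Fin (top k + 1) => w i * v i) ∈ basin k α) ∧
      Nonempty (basin k α ≃ₜ (Fin (top k + 1 - gg k) → ℝ)) ∧
      ∀ v : Fin (top k + 1) → ℝ, (∀ i, 0 < v i) → (v ∈ basin k α ↔ Balanced k α v) := by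
    intro h
    have hk := odd_dd k h
    have hex : ∀ v : Fin (top k + 1) → ℝ, ∃ c : ℕ → ℝ, (∀ i, 0 < v i) →
        (∀ n, 0 < c n ∧ c (n + gg k) * c n = ∑ i, α i) ∧
        Tendsto (fun n => sol k α v n - c n) atTop (𝓝 0) := by
      intro v
      by_cases hv : ∀ i, 0 < v i
      · obtain ⟨c, h1, h2⟩ := exists_limit hα h hv
        exact ⟨c, fun _ => ⟨h1, h2⟩⟩
      · exact ⟨fun _ => 0, fun h => absurd h hv⟩
    choose c hcc using hex
    have hc := fun v hv => (hcc v hv).1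
    have hlim := fun v hv => (hcc v hv).2
    obtain ⟨ρ, r1, r2, r3⟩ := rate_equal hα hk
    refine ⟨⟨c, hc, ⟨ρ, r1, r2, fun v hv => r3 v hv (c v) (hc v hv) (hlim v hv)⟩,
      fun v v' hv hv' D hD n => limit_ratio hα hv hv' (hc v hv) (hlim v hv) (hc v' hv')
        (hlim v' hv') hD n, fun v hv => ?_⟩,
      fun v hv => unique_scaling hα hk hc hlim hv, homeo hα hk hc hlim,
      fun v hv => balanced hα hk hv (hc v hv) (hlim v hv)⟩
    have h1 := scale_mem_iff hα hk hv (w := fun _ => 1) (fun n => by norm_num) (hc v hv)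
      (hlim v hv)
    simpa only [one_mul] using h1
  refine ⟨⟨fun hB => ?_, ?_⟩, ?_, main⟩
  · -- equal valuations: two scalings of the constant vector
    by_contra hcon
    push Not at hcon
    obtain ⟨-, huq, -⟩ := main hcon
    obtain ⟨w, -, huniq⟩ := huq (fun _ => 1) (fun _ => one_pos)
    have h1 := huniq (fun _ => 1) ⟨fun n => by norm_num, by
      rw [hB]; intro i; norm_num⟩
    have hdiv : ∀ n, (n + gg k) / gg k = n / gg k + 1 := fun n => Nat.add_div_right n hd
    have h2 := huniq (fun n => if Even (n / gg k) then 2 else 1 / 2) ⟨fun n => by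
        simp only [hdiv, Nat.even_add_one]
        by_cases h : Even (n / gg k)
        · simp [h]
        · simp [h], by
      rw [hB]
      intro i
      simp only
      split_ifs <;> norm_num⟩
    have h3 := congrFun (h1.trans h2.symm) 0
    simp at h3
  · rintro ⟨i, j, hij⟩
    ext v
    constructor
    · exact fun hv => hv.1
    · intro hv
      refine ⟨hv, ?_⟩
      rcases lt_or_gt_of_ne hij with h | h
      · exact tendsto_of_ne hα hv h
      · exact tendsto_of_ne hα hv h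
  · rintro ⟨i, j, hij⟩
    exact rate_mixed hα hij

end Pool.Agent.Results.MP_247194_an.AnyDelaysExponentialRate
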